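import Pool.Agent.H91.Jerk

set_option autoImplicit false

open Finset H91.Jerk in
theorem Pool.Agent.Results.MP_6d6828_an.NotExact.result :
    ∃ (n : ℕ) (h ρ A J : ℝ) (wmax : ℕ → ℝ), 3 ≤ n ∧ 0 < h ∧ 0 < ρ ∧ 0 < A ∧ 0 < J ∧
    (∀ i ∈ Icc 2 (n - 1), 0 < wmax i) ∧ ∃ w t, FeasR n h ρ A J wmax w t ∧ ∃ δ > 0,
      ∀ w', FeasP n h ρ A J wmax w' →
        ∑ i ∈ Icc 2 (n - 1), t i + δ ≤ ∑ i ∈ Icc 2 (n - 1), h / √(w' i) :=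
  main
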